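import Mathlib
import Pool.Agent.Work.MP_b2b647_co.Ramsey

/-!
# MP_40574a_nt: one pattern for several windows at once
-/

set_option autoImplicit false

namespace Pool.Agent.Work.MP_40574a_nt_pat

open Finset Filter

/-- Finitely many families of patterns, each of which meets every `k`-subset, have a common
member. -/
theorem common_pattern {r k : ℕ} (L : ℕ) (hrk : r ≤ k) : ∃ K : ℕ, ∀ S : Finset ℕ, S.card = K →
    ∀ G : Fin L → Finset ℕ → Prop,
      (∀ i, ∀ H ⊆ S, H.card = k → ∃ P ⊆ H, P.card = r ∧ G i P) →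
      ∃ P ⊆ S, P.card = r ∧ ∀ i, G i P := by
  classical
  obtain ⟨K, hK⟩ := MP_b2b647_co.ramsey (c := Option (Fin L)) r k
  refine ⟨K, fun S hS G hG => ?_⟩
  set χ : Finset ℕ → Option (Fin L) := fun P =>
    if h : ∃ i, ¬ G i P then some h.choose else none with hχ
  obtain ⟨H, hHS, hHk, col, hcol⟩ := hK S hS.ge χ
  have hnone : ∀ P ⊆ H, P.card = r → χ P = none → ∀ i, G i P := by
    intro P _ _ h1 i
    by_contra hcon
    have h2 : ∃ i, ¬ G i P := ⟨i, hcon⟩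
    simp only [hχ, dif_pos h2] at h1
    exact Option.some_ne_none _ h1
  cases hc : col with
  | some i =>
    obtain ⟨P, hPH, hPr, hP⟩ := hG i H hHS hHk
    have h1 := hcol P hPH hPr
    rw [hc] at h1
    by_cases h : ∃ i, ¬ G i P
    · simp only [hχ, dif_pos h] at h1
      have h2 : h.choose = i := Option.some.inj h1
      have h3 := h.choose_spec
      rw [h2] at h3
      exact absurd hP h3
    · simp only [hχ, dif_neg h] at h1
      exact absurd h1.symm (Option.some_ne_none _)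
  | none =>
    obtain ⟨P, hPH, hPr⟩ := exists_subset_card_eq (show r ≤ H.card by omega)
    have h1 := hcol P hPH hPr
    rw [hc] at h1
    exact ⟨P, hPH.trans hHS, hPr, hnone P hPH hPr h1⟩

/-- The windows at `⌈1.03 ^ i N⌉`, `i < L`, serve the interval `[N, A N]` if `A < 1.03 ^ L`. -/
theorem cover {A L N n : ℕ} (hL : (A : ℝ) < 1.03 ^ L) (hN : 1 ≤ N) (hNn : N ≤ n) (hnA : n ≤ A * N) :
    ∃ i : Fin L, N ≤ ⌈(1.03 : ℝ) ^ (i : ℕ) * N⌉₊ ∧ ⌈(1.03 : ℝ) ^ (i : ℕ) * N⌉₊ ≤ n ∧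
      100 * n ≤ 103 * ⌈(1.03 : ℝ) ^ (i : ℕ) * N⌉₊ := by
  have hN0 : (0 : ℝ) < N := by exact_mod_cast hN
  have h1 : (1 : ℝ) ≤ (n : ℝ) / N := by
    rw [le_div_iff₀ hN0, one_mul]
    exact_mod_cast hNn
  obtain ⟨i, hi1, hi2⟩ := exists_nat_pow_near h1 (show (1 : ℝ) < 1.03 by norm_num)
  have h2 : (n : ℝ) / N ≤ A := by
    rw [div_le_iff₀ hN0]
    exact_mod_cast hnA
  have hiL : i < L := by
    have h3 : (1.03 : ℝ) ^ i < 1.03 ^ L := lt_of_le_of_lt (hi1.trans h2) hL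
    exact (pow_lt_pow_iff_right₀ (by norm_num)).1 h3
  rw [le_div_iff₀ hN0] at hi1
  rw [div_lt_iff₀ hN0] at hi2
  refine ⟨⟨i, hiL⟩, ?_, ?_, ?_⟩
  · have h3 : (N : ℝ) ≤ (⌈(1.03 : ℝ) ^ i * N⌉₊ : ℝ) := by
      refine le_trans ?_ (Nat.le_ceil _)
      have : (1 : ℝ) ≤ 1.03 ^ i := one_le_pow₀ (by norm_num)
      nlinarith
    exact_mod_cast h3
  · exact Nat.ceil_le.2 hi1
  · have h3 : (1.03 : ℝ) ^ i * N ≤ (⌈(1.03 : ℝ) ^ i * N⌉₊ : ℝ) := Nat.le_ceil _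
    have h4 : (100 : ℝ) * n ≤ 103 * (⌈(1.03 : ℝ) ^ i * N⌉₊ : ℝ) := by
      have h5 : (1.03 : ℝ) ^ (i + 1) * N = 1.03 * (1.03 ^ i * N) := by ring
      rw [h5] at hi2
      nlinarith
    exact_mod_cast h4

end Pool.Agent.Work.MP_40574a_nt_pat
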