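import Mathlib

/-!
# MP_40574a_nt: a positive proportion of the patterns
-/

set_option autoImplicit false

namespace Pool.Agent.Work.MP_40574a_nt_pat

open Finset Filter

/-- `P` is good for `n`: at least `b` numbers `m` such that all `m + h`, `h ∈ P`, are primes and
values for `n`. -/
def GoodP (val : ℕ → ℕ → Prop) (b : ℝ) (n : ℕ) (P : Finset ℕ) : Prop :=
  ∃ T : Finset ℕ, b ≤ (T.card : ℝ) ∧ ∀ m ∈ T, ∀ h ∈ P, (m + h).Prime ∧ val n (m + h)

theorem GoodP.mono {val : ℕ → ℕ → Prop} {b b' : ℝ} {n : ℕ} {P : Finset ℕ}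
    (h : GoodP val b n P) (hb : b' ≤ b) : GoodP val b' n P := by
  obtain ⟨T, h1, h2⟩ := h
  exact ⟨T, hb.trans h1, h2⟩

/-- Multiples of `k!` form an admissible set. -/
theorem admissible {k : ℕ} {H : Finset ℕ} (hk : H.card = k) (hH : ∀ h ∈ H, k.factorial ∣ h) :
    ∀ q : ℕ, q.Prime → ∃ v : ℕ, ∀ h ∈ H, ¬ q ∣ v + h := by
  intro q hq
  by_cases hqk : q ≤ k
  · refine ⟨1, fun h hh hd => ?_⟩
    have h1 : q ∣ h := ((Nat.dvd_factorial hq.pos hqk)).trans (hH h hh)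
    have h2 : q ∣ 1 := (Nat.dvd_add_left h1).1 hd
    exact hq.one_lt.ne' (Nat.dvd_one.1 h2)
  · have hlt : (H.image fun h => h % q).card < (range q).card := by
      rw [card_range]
      refine lt_of_le_of_lt card_image_le ?_
      omega
    obtain ⟨a, ha, hna⟩ := exists_mem_notMem_of_card_lt_card hlt
    rw [mem_range] at ha
    refine ⟨q - a, fun h hh hd => ?_⟩
    apply hna
    refine mem_image.2 ⟨h, hh, ?_⟩
    have h1 : (q - a + h) % q = 0 := Nat.mod_eq_zero_of_dvd hd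
    have h2 : q ∣ (q - a + h) := hd
    have h3 : h ≡ a [MOD q] := by
      have h4 : (q - a + h) ≡ (q - a + a) [MOD q] := by
        rw [Nat.sub_add_cancel ha.le]
        exact (Nat.modEq_zero_iff_dvd.2 hd).trans (Nat.modEq_zero_iff_dvd.2 dvd_rfl).symm
      exact Nat.ModEq.add_left_cancel' _ h4
    have h5 : h % q = a % q := h3
    rw [h5, Nat.mod_eq_of_lt ha]

/-- One admissible set contains a good pattern. -/
theorem one_set {val : ℕ → ℕ → Prop} {r k : ℕ} {H : Finset ℕ} (hk : H.card = k) (hrk : r ≤ k)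
    {b : ℝ} {n : ℕ} {T : Finset ℕ} (hT : b ≤ (T.card : ℝ))
    (hm : ∀ m ∈ T, (∀ h ∈ H, val n (m + h)) ∧ r ≤ (H.filter fun h => (m + h).Prime).card) :
    ∃ P ∈ H.powersetCard r, GoodP val (b / (k.choose r : ℝ)) n P := by
  classical
  have h1 : ∀ m ∈ T, ∃ P ∈ H.powersetCard r, ∀ h ∈ P, (m + h).Prime := by
    intro m hmT
    obtain ⟨P, hP, hPc⟩ := exists_subset_card_eq (hm m hmT).2
    exact ⟨P, mem_powersetCard.2 ⟨hP.trans (filter_subset _ _), hPc⟩,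
      fun h hh => (mem_filter.1 (hP hh)).2⟩
  choose! f hf hfp using h1
  have hne : (H.powersetCard r).Nonempty := powersetCard_nonempty.2 (by omega)
  have hcard : ((H.powersetCard r).card : ℝ) = (k.choose r : ℝ) := by
    rw [card_powersetCard, hk]
  have hc0 : (0 : ℝ) < (k.choose r : ℝ) := by exact_mod_cast Nat.choose_pos hrk
  obtain ⟨P, hP, hPb⟩ := exists_le_card_fiber_of_nsmul_le_card_of_maps_to (M := ℝ) (s := T)
    (t := H.powersetCard r) (f := f) hf hne (b := b / (k.choose r : ℝ)) (by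
      rw [nsmul_eq_mul, hcard, mul_div_cancel₀ _ hc0.ne']
      exact hT)
  refine ⟨P, hP, T.filter (fun m => f m = P), hPb, fun m hmT h hh => ?_⟩
  obtain ⟨hmT', hfm⟩ := mem_filter.1 hmT
  rw [← hfm] at hh hP
  exact ⟨hfp m hmT' h hh, (hm m hmT').1 h ((mem_powersetCard.1 hP).1 hh)⟩

/-- Finitely many positive numbers. -/
theorem exists_pos_le {ι : Type*} (s : Finset ι) (κ : ι → ℝ) (h : ∀ i ∈ s, 0 < κ i) :
    ∃ x : ℝ, 0 < x ∧ ∀ i ∈ s, x ≤ κ i := by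
  classical
  rcases s.eq_empty_or_nonempty with rfl | hs
  · exact ⟨1, one_pos, fun i hi => by simp at hi⟩
  · obtain ⟨j, hj, hmin⟩ := exists_min_image s κ hs
    exact ⟨κ j, h j hj, hmin⟩

/-- Counting: if every `k`-set contains a member of `𝒢` then `𝒢` is large. -/
theorem count_sets {M k r : ℕ} (hrk : r ≤ k) (hM : 2 * k ≤ M) (hM0 : 1 ≤ M)
    (𝒢 : Finset (Finset ℕ)) (h𝒢 : 𝒢 ⊆ (Icc 1 M).powersetCard r)
    (h : ∀ J ∈ (Icc 1 M).powersetCard k, ∃ Q ∈ 𝒢, Q ⊆ J) :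
    (M : ℝ) ^ r / (2 ^ k * (k.factorial : ℝ)) ≤ (𝒢.card : ℝ) := by
  classical
  have h1 : (Icc 1 M).powersetCard k ⊆ 𝒢.biUnion fun Q =>
      ((Icc 1 M).powersetCard (k - r)).image fun R => R ∪ Q := by
    intro J hJ
    obtain ⟨Q, hQ, hQJ⟩ := h J hJ
    obtain ⟨hJ1, hJ2⟩ := mem_powersetCard.1 hJ
    obtain ⟨-, hQ2⟩ := mem_powersetCard.1 (h𝒢 hQ)
    refine mem_biUnion.2 ⟨Q, hQ, mem_image.2 ⟨J \ Q, mem_powersetCard.2
      ⟨sdiff_subset.trans hJ1, ?_⟩, sdiff_union_of_subset hQJ⟩⟩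
    rw [card_sdiff_of_subset hQJ, hJ2, hQ2]
  have h2 : M.choose k ≤ 𝒢.card * M ^ (k - r) := by
    have h3 := card_le_card h1
    rw [card_powersetCard, Nat.card_Icc, Nat.add_sub_cancel] at h3
    refine h3.trans ((card_biUnion_le).trans ?_)
    rw [← smul_eq_mul, ← sum_const]
    refine sum_le_sum fun Q _ => card_image_le.trans ?_
    rw [card_powersetCard, Nat.card_Icc, Nat.add_sub_cancel]
    exact Nat.choose_le_pow _ _
  have h3 : ((M + 1 - k : ℕ) : ℝ) ^ k ≤ (k.factorial : ℝ) * (M.choose k : ℝ) := by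
    have := Nat.pow_le_choose (α := ℝ) k M
    have hf : (0 : ℝ) < (k.factorial : ℝ) := by exact_mod_cast k.factorial_pos
    rw [div_le_iff₀ hf] at this
    linarith
  have h4 : ((M : ℝ) / 2) ^ k ≤ ((M + 1 - k : ℕ) : ℝ) ^ k := by
    refine pow_le_pow_left₀ (by positivity) ?_ k
    have : k ≤ M + 1 := by omega
    rw [Nat.cast_sub this]
    push_cast
    have h5 : (2 * k : ℝ) ≤ M := by exact_mod_cast hM
    linarith
  have h5 : (M.choose k : ℝ) ≤ (𝒢.card : ℝ) * (M : ℝ) ^ (k - r) := by exact_mod_cast h2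
  have hMp : (0 : ℝ) < (M : ℝ) := by exact_mod_cast hM0
  have hfac : (0 : ℝ) < (k.factorial : ℝ) := by exact_mod_cast k.factorial_pos
  rw [div_le_iff₀ (by positivity)]
  have h6 : (M : ℝ) ^ k = (M : ℝ) ^ r * (M : ℝ) ^ (k - r) := by
    rw [← pow_add, Nat.add_sub_cancel' hrk]
  have h7 : (M : ℝ) ^ k / 2 ^ k ≤ (k.factorial : ℝ) * ((𝒢.card : ℝ) * (M : ℝ) ^ (k - r)) := by
    calc (M : ℝ) ^ k / 2 ^ k = ((M : ℝ) / 2) ^ k := by rw [div_pow]
      _ ≤ ((M + 1 - k : ℕ) : ℝ) ^ k := h4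
      _ ≤ (k.factorial : ℝ) * (M.choose k : ℝ) := h3
      _ ≤ _ := mul_le_mul_of_nonneg_left h5 hfac.le
  rw [h6, div_le_iff₀ (by positivity)] at h7
  have h8 : (0 : ℝ) < (M : ℝ) ^ (k - r) := by positivity
  have h9 : (M : ℝ) ^ r * (M : ℝ) ^ (k - r) ≤
      ((𝒢.card : ℝ) * (2 ^ k * (k.factorial : ℝ))) * (M : ℝ) ^ (k - r) := by
    calc (M : ℝ) ^ r * (M : ℝ) ^ (k - r) ≤ _ := h7
      _ = _ := by ring
  exact le_of_mul_le_mul_right h9 h8

/-- **Part 1**: for every large `n` a positive proportion of the patterns is good. -/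
theorem part_one {val : ℕ → ℕ → Prop} {r k : ℕ} (hrk : r ≤ k) {F : ℕ → ℝ} (hF : ∀ n, 0 ≤ F n)
    {S : Set ℕ}
    (hres : ∀ H : Finset ℕ, H.card = k → (∀ q : ℕ, q.Prime → ∃ v : ℕ, ∀ h ∈ H, ¬ q ∣ v + h) →
      ∃ κ : ℝ, 0 < κ ∧ ∃ n₀ : ℕ, ∀ n : ℕ, n₀ ≤ n → n ∈ S → ∃ T : Finset ℕ,
        κ * F n ≤ (T.card : ℝ) ∧ ∀ m ∈ T, (∀ h ∈ H, val n (m + h)) ∧
          r ≤ (H.filter (fun h => (m + h).Prime)).card) :
    ∃ δ : ℝ, 0 < δ ∧ ∃ X₀ : ℕ, ∀ X : ℕ, X₀ ≤ X → ∃ κ : ℝ, 0 < κ ∧ ∃ n₀ : ℕ, ∀ n : ℕ,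
      n₀ ≤ n → n ∈ S → ∃ W : Finset (Finset ℕ), W ⊆ (Icc 1 X).powersetCard r ∧
        δ * (X : ℝ) ^ r ≤ (W.card : ℝ) ∧ ∀ P ∈ W, GoodP val (κ * F n) n P := by
  classical
  have hfac : 0 < k.factorial := k.factorial_pos
  have hfacR : (0 : ℝ) < (k.factorial : ℝ) := by exact_mod_cast hfac
  refine ⟨1 / ((2 * k.factorial : ℝ) ^ r * (2 ^ k * (k.factorial : ℝ))), by positivity,
    2 * (k + 1) * k.factorial, fun X hX => ?_⟩
  set M := X / k.factorial with hM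
  have hM1 : 2 * (k + 1) ≤ M := by
    rw [hM, Nat.le_div_iff_mul_le hfac]
    exact hX
  have hMX : (X : ℝ) ≤ 2 * (k.factorial : ℝ) * M := by
    have h1 : X < k.factorial * (M + 1) := Nat.lt_mul_div_succ X hfac
    have h2 : k.factorial * (M + 1) ≤ 2 * k.factorial * M := by nlinarith
    exact_mod_cast h1.le.trans h2
  have hinj : Function.Injective fun j : ℕ => j * k.factorial := by
    intro i j hij
    exact Nat.eq_of_mul_eq_mul_right hfac hij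
  set φ : Finset ℕ → Finset ℕ := fun J => J.image fun j => j * k.factorial with hφ
  have hφinj : Function.Injective φ := image_injective hinj
  have hφcard : ∀ J, (φ J).card = J.card := fun J => card_image_of_injective _ hinj
  -- the data of the `k`-sets
  have hdata : ∀ J ∈ (Icc 1 M).powersetCard k, ∃ κ : ℝ, 0 < κ ∧ ∃ n₀ : ℕ, ∀ n : ℕ, n₀ ≤ n →
      n ∈ S → ∃ T : Finset ℕ, κ * F n ≤ (T.card : ℝ) ∧
        ∀ m ∈ T, (∀ h ∈ φ J, val n (m + h)) ∧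
          r ≤ ((φ J).filter (fun h => (m + h).Prime)).card := by
    intro J hJ
    have hJk : (φ J).card = k := by rw [hφcard, (mem_powersetCard.1 hJ).2]
    refine hres (φ J) hJk (admissible hJk fun h hh => ?_)
    obtain ⟨j, -, rfl⟩ := mem_image.1 hh
    exact Dvd.intro_left j rfl
  choose! κ hκ n₀ hn₀ using hdata
  obtain ⟨x, hx, hxκ⟩ := exists_pos_le ((Icc 1 M).powersetCard k) κ hκ
  have hc0 : (0 : ℝ) < (k.choose r : ℝ) := by exact_mod_cast Nat.choose_pos hrk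
  refine ⟨x / (k.choose r : ℝ), by positivity, ((Icc 1 M).powersetCard k).sup n₀,
    fun n hn hnS => ?_⟩
  set 𝒢 := ((Icc 1 M).powersetCard r).filter fun Q =>
    GoodP val (x / (k.choose r : ℝ) * F n) n (φ Q) with h𝒢
  have hcount := count_sets hrk (by omega) (by omega) 𝒢 (filter_subset _ _) (fun J hJ => by
    obtain ⟨T, hT1, hT2⟩ := hn₀ J hJ n ((le_sup hJ).trans hn) hnS
    have hJk : (φ J).card = k := by rw [hφcard, (mem_powersetCard.1 hJ).2]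
    obtain ⟨P, hP, hPg⟩ := one_set hJk hrk hT1 hT2
    obtain ⟨hP1, hP2⟩ := mem_powersetCard.1 hP
    obtain ⟨Q, hQJ, rfl⟩ : ∃ Q ⊆ J, φ Q = P := by
      obtain ⟨Q, hQ, hQP⟩ := subset_image_iff.1 hP1
      exact ⟨Q, hQ, hQP⟩
    refine ⟨Q, mem_filter.2 ⟨mem_powersetCard.2 ⟨hQJ.trans (mem_powersetCard.1 hJ).1, ?_⟩, ?_⟩,
      hQJ⟩
    · rw [← hφcard Q, hP2]
    · refine hPg.mono ?_
      rw [div_mul_eq_mul_div]
      gcongr
      · exact hF n
      · exact hxκ J hJ)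
  refine ⟨𝒢.image φ, ?_, ?_, ?_⟩
  · intro P hP
    obtain ⟨Q, hQ, rfl⟩ := mem_image.1 hP
    obtain ⟨hQ1, hQ2⟩ := mem_powersetCard.1 (mem_filter.1 hQ).1
    refine mem_powersetCard.2 ⟨?_, by rw [hφcard, hQ2]⟩
    intro h hh
    obtain ⟨j, hj, rfl⟩ := mem_image.1 hh
    obtain ⟨hj1, hj2⟩ := mem_Icc.1 (hQ1 hj)
    refine mem_Icc.2 ⟨Nat.mul_pos hj1 hfac, ?_⟩
    calc j * k.factorial ≤ M * k.factorial := Nat.mul_le_mul_right _ hj2
      _ ≤ X := Nat.div_mul_le_self _ _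
  · rw [card_image_of_injective _ hφinj]
    refine le_trans ?_ hcount
    rw [one_div_mul_eq_div, div_le_div_iff₀ (by positivity) (by positivity)]
    have h1 : (X : ℝ) ^ r ≤ (2 * (k.factorial : ℝ) * M) ^ r :=
      pow_le_pow_left₀ (by positivity) hMX r
    calc (X : ℝ) ^ r * (2 ^ k * (k.factorial : ℝ))
        ≤ (2 * (k.factorial : ℝ) * M) ^ r * (2 ^ k * (k.factorial : ℝ)) :=
          mul_le_mul_of_nonneg_right h1 (by positivity)
      _ = (M : ℝ) ^ r * ((2 * k.factorial : ℝ) ^ r * (2 ^ k * (k.factorial : ℝ))) := by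
          rw [mul_pow]
          ring
  · intro P hP
    obtain ⟨Q, hQ, rfl⟩ := mem_image.1 hP
    exact (mem_filter.1 hQ).2

/-- **Part 2**: a positive proportion of the patterns is good for a positive proportion of all
`n`. -/
theorem part_two {ι : Type*} [DecidableEq ι] {PP : Finset ι} {B δ : ℝ} (hB : (PP.card : ℝ) ≤ B)
    (hδ : 0 < δ) {S : Set ℕ} {G : ℕ → ι → Prop} {n₀ : ℕ}
    (h : ∀ n : ℕ, n₀ ≤ n → n ∈ S → ∃ W : Finset ι, W ⊆ PP ∧ δ * B ≤ (W.card : ℝ) ∧ ∀ P ∈ W, G n P)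
    (hS : ∃ N₁ : ℕ, ∀ N : ℕ, N₁ ≤ N → ∃ A : Finset ℕ, (∀ n ∈ A, n < N ∧ n₀ ≤ n ∧ n ∈ S) ∧
      (N : ℝ) / 2 ≤ (A.card : ℝ)) :
    ∃ U : Finset ι, U ⊆ PP ∧ δ / 4 * B ≤ (U.card : ℝ) ∧ ∀ P ∈ U, ∃ᶠ N : ℕ in atTop,
      ∃ A : Finset ℕ, (∀ n ∈ A, n < N ∧ n ∈ S ∧ G n P) ∧ δ / 4 * (N : ℝ) ≤ (A.card : ℝ) := by
  classical
  set Q : ι → ℕ → Prop := fun P N => ∃ A : Finset ℕ, (∀ n ∈ A, n < N ∧ n ∈ S ∧ G n P) ∧
    δ / 4 * (N : ℝ) ≤ (A.card : ℝ) with hQ
  set U := PP.filter fun P => ∃ᶠ N : ℕ in atTop, Q P N with hU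
  refine ⟨U, filter_subset _ _, ?_, fun P hP => (mem_filter.1 hP).2⟩
  have h1 : ∀ P ∈ PP \ U, ∀ᶠ N : ℕ in atTop, ¬ Q P N := by
    intro P hP
    obtain ⟨hP1, hP2⟩ := mem_sdiff.1 hP
    rw [← not_frequently]
    exact fun h2 => hP2 (mem_filter.2 ⟨hP1, h2⟩)
  have h2 := (eventually_all_finset (PP \ U)).2 h1
  obtain ⟨N₁, hN₁⟩ := hS
  obtain ⟨N, hN, hNN, hN1⟩ := (h2.and ((eventually_ge_atTop N₁).and
    (eventually_ge_atTop 1))).exists
  obtain ⟨A, hA, hAc⟩ := hN₁ N hNN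
  choose! W hWP hWc hWG using h
  -- double counting
  have h3 : ∑ n ∈ A, δ * B ≤ ∑ n ∈ A, ((W n).card : ℝ) :=
    sum_le_sum fun n hn => hWc n (hA n hn).2.1 (hA n hn).2.2
  have h4 : ∑ n ∈ A, ((W n).card : ℝ) = ∑ P ∈ PP, ((A.filter fun n => P ∈ W n).card : ℝ) := by
    have e1 : ∀ n ∈ A, ((W n).card : ℝ) = ∑ P ∈ PP, if P ∈ W n then (1 : ℝ) else 0 := by
      intro n hn
      rw [← sum_filter, sum_const, nsmul_eq_mul, mul_one]
      congr 2
      ext P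
      rw [mem_filter]
      exact ⟨fun h5 => ⟨hWP n (hA n hn).2.1 (hA n hn).2.2 h5, h5⟩, fun h5 => h5.2⟩
    rw [sum_congr rfl e1, sum_comm]
    refine sum_congr rfl fun P _ => ?_
    rw [← sum_filter, sum_const, nsmul_eq_mul, mul_one]
  have hfib : ∀ P, ∀ n ∈ A.filter (fun n => P ∈ W n), n < N ∧ n ∈ S ∧ G n P := by
    intro P n hn
    obtain ⟨hnA, hPW⟩ := mem_filter.1 hn
    exact ⟨(hA n hnA).1, (hA n hnA).2.2, hWG n (hA n hnA).2.1 (hA n hnA).2.2 P hPW⟩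
  have h5 : ∀ P ∈ PP, ((A.filter fun n => P ∈ W n).card : ℝ) ≤
      (if P ∈ U then (N : ℝ) else 0) + δ / 4 * N := by
    intro P hP
    have hle : ((A.filter fun n => P ∈ W n).card : ℝ) ≤ N := by
      have : (A.filter fun n => P ∈ W n) ⊆ range N := fun n hn =>
        mem_range.2 (hfib P n hn).1
      have := card_le_card this
      rw [card_range] at this
      exact_mod_cast this
    by_cases hPU : P ∈ U
    · rw [if_pos hPU]
      have : 0 ≤ δ / 4 * (N : ℝ) := by positivity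
      linarith
    · rw [if_neg hPU, zero_add]
      by_contra hcon
      exact hN P (mem_sdiff.2 ⟨hP, hPU⟩) ⟨_, hfib P, (not_le.1 hcon).le⟩
  have h6 : ∑ P ∈ PP, ((if P ∈ U then (N : ℝ) else 0) + δ / 4 * N) =
      (U.card : ℝ) * N + (PP.card : ℝ) * (δ / 4 * N) := by
    rw [sum_add_distrib, sum_const, nsmul_eq_mul, sum_ite_mem,
      inter_eq_right.2 (filter_subset _ _), sum_const, nsmul_eq_mul]
  have h7 := (h3.trans_eq h4).trans (sum_le_sum h5)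
  rw [h6, sum_const, nsmul_eq_mul] at h7
  have hB0 : 0 ≤ B := le_trans (Nat.cast_nonneg _) hB
  have hN0 : (0 : ℝ) < N := by exact_mod_cast hN1
  have h8 : (N : ℝ) / 2 * (δ * B) ≤ (A.card : ℝ) * (δ * B) :=
    mul_le_mul_of_nonneg_right hAc (by positivity)
  have h9 : (PP.card : ℝ) * (δ / 4 * N) ≤ B * (δ / 4 * N) :=
    mul_le_mul_of_nonneg_right hB (by positivity)
  have h10 : (δ / 4 * B) * N ≤ (U.card : ℝ) * N := by nlinarith
  exact le_of_mul_le_mul_right h10 hN0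

/-- Numbers which are not divisible by four. -/
theorem many_not_four (n₀ : ℕ) : ∃ N₁ : ℕ, ∀ N : ℕ, N₁ ≤ N → ∃ A : Finset ℕ,
    (∀ n ∈ A, n < N ∧ n₀ ≤ n ∧ n ∈ {n : ℕ | ¬ 4 ∣ n}) ∧ (N : ℝ) / 2 ≤ (A.card : ℝ) := by
  classical
  refine ⟨8 * n₀ + 40, fun N hN => ?_⟩
  -- the numbers `4 i + 1, 4 i + 2, 4 i + 3`
  set I := Finset.Ico (n₀ / 4 + 1) (N / 4) with hI
  set A := (I ×ˢ ({1, 2, 3} : Finset ℕ)).image fun x => 4 * x.1 + x.2 with hA
  refine ⟨A, fun n hn => ?_, ?_⟩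
  · obtain ⟨⟨i, j⟩, hx, rfl⟩ := mem_image.1 hn
    obtain ⟨hi, hj⟩ := mem_product.1 hx
    simp only [mem_insert, mem_singleton] at hj
    obtain ⟨h1, h2⟩ := mem_Ico.1 hi
    refine ⟨by omega, by omega, ?_⟩
    show ¬ 4 ∣ 4 * i + j
    omega
  · have hcard : A.card = I.card * 3 := by
      rw [hA, card_image_of_injOn, card_product]
      · rfl
      · rintro ⟨i, j⟩ hx ⟨i', j'⟩ hx' he
        simp only [coe_product, Set.mem_prod, mem_coe, mem_insert, mem_singleton] at hx hx'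
        have he' : 4 * i + j = 4 * i' + j' := he
        have hj := hx.2
        have hj' := hx'.2
        have : i = i' := by omega
        have : j = j' := by omega
        simp only [Prod.mk.injEq]
        omega
    rw [hcard, hI, Nat.card_Ico]
    have : N ≤ 2 * ((N / 4 - (n₀ / 4 + 1)) * 3) := by omega
    have h2 : (N : ℝ) ≤ 2 * (((N / 4 - (n₀ / 4 + 1)) * 3 : ℕ) : ℝ) := by exact_mod_cast this
    push_cast at h2 ⊢
    linarith

end Pool.Agent.Work.MP_40574a_nt_pat
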