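import Mathlib
import Pool.Agent.Work.MP_40574a_nt_pat.Pattern

/-!
# MP_40574a_nt: counting the patterns
-/

set_option autoImplicit false

namespace Pool.Agent.Work.MP_40574a_nt_pat

open Finset Filter

/-- One admissible set contains a good pattern; the whole set is remembered. -/
theorem one_set_all {val : ℕ → Prop} {r k : ℕ} {H : Finset ℕ} (hk : H.card = k) (hrk : r ≤ k)
    {b : ℝ} {T : Finset ℕ} (hT : b ≤ (T.card : ℝ))
    (hm : ∀ m ∈ T, (∀ h ∈ H, val (m + h)) ∧ r ≤ (H.filter fun h => (m + h).Prime).card) :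
    ∃ P ∈ H.powersetCard r, ∃ T' : Finset ℕ, b / (k.choose r : ℝ) ≤ (T'.card : ℝ) ∧
      ∀ m ∈ T', (∀ h ∈ P, (m + h).Prime) ∧ ∀ h ∈ H, val (m + h) := by
  classical
  have h1 : ∀ m ∈ T, ∃ P ∈ H.powersetCard r, ∀ h ∈ P, (m + h).Prime := by
    intro m hmT
    obtain ⟨P, hP, hPc⟩ := exists_subset_card_eq (hm m hmT).2
    exact ⟨P, mem_powersetCard.2 ⟨hP.trans (filter_subset _ _), hPc⟩,
      fun h hh => (mem_filter.1 (hP hh)).2⟩
  choose! f hf hfp using h1
  have hne : (H.powersetCard r).Nonempty := powersetCard_nonempty.2 (by omega)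
  have hcard : ((H.powersetCard r).card : ℝ) = (k.choose r : ℝ) := by
    rw [card_powersetCard, hk]
  have hc0 : (0 : ℝ) < (k.choose r : ℝ) := by exact_mod_cast Nat.choose_pos hrk
  obtain ⟨P, hP, hPb⟩ := exists_le_card_fiber_of_nsmul_le_card_of_maps_to (M := ℝ) (s := T)
    (t := H.powersetCard r) (f := f) hf hne (b := b / (k.choose r : ℝ)) (by
      rw [nsmul_eq_mul, hcard, mul_div_cancel₀ _ hc0.ne']
      exact hT)
  refine ⟨P, hP, T.filter (fun m => f m = P), hPb, fun m hmT => ⟨fun h hh => ?_, ?_⟩⟩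
  · obtain ⟨hmT', hfm⟩ := mem_filter.1 hmT
    rw [← hfm] at hh
    exact hfp m hmT' h hh
  · exact (hm m (mem_filter.1 hmT).1).1

/-- If every admissible `k`-subset of `{0, …, X}` contains a member of `W`, then `W` is large. -/
theorem many_patterns {r k : ℕ} (hrk : r ≤ k) : ∃ δ : ℝ, 0 < δ ∧ ∃ X₀ : ℕ, ∀ X : ℕ, X₀ ≤ X →
    ∀ W : Finset (Finset ℕ), W ⊆ (range (X + 1)).powersetCard r →
      (∀ H ∈ (range (X + 1)).powersetCard k,
        (∀ q : ℕ, q.Prime → ∃ v : ℕ, ∀ h ∈ H, ¬ q ∣ v + h) → ∃ P ∈ W, P ⊆ H) →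
      δ * (X : ℝ) ^ r ≤ (W.card : ℝ) := by
  classical
  have hfac : 0 < k.factorial := k.factorial_pos
  have hfacR : (0 : ℝ) < (k.factorial : ℝ) := by exact_mod_cast hfac
  refine ⟨1 / ((2 * k.factorial : ℝ) ^ r * (2 ^ k * (k.factorial : ℝ))), by positivity,
    2 * (k + 1) * k.factorial, fun X hX W hW hH => ?_⟩
  set M := X / k.factorial with hM
  have hM1 : 2 * (k + 1) ≤ M := by
    rw [hM, Nat.le_div_iff_mul_le hfac]
    exact hX
  have hMX : (X : ℝ) ≤ 2 * (k.factorial : ℝ) * M := by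
    have h1 : X < k.factorial * (M + 1) := Nat.lt_mul_div_succ X hfac
    have h2 : k.factorial * (M + 1) ≤ 2 * k.factorial * M := by nlinarith
    exact_mod_cast h1.le.trans h2
  have hinj : Function.Injective fun j : ℕ => j * k.factorial := by
    intro i j hij
    exact Nat.eq_of_mul_eq_mul_right hfac hij
  set φ : Finset ℕ → Finset ℕ := fun J => J.image fun j => j * k.factorial with hφ
  have hφinj : Function.Injective φ := image_injective hinj
  have hφcard : ∀ J, (φ J).card = J.card := fun J => card_image_of_injective _ hinj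
  set 𝒢 := ((Icc 1 M).powersetCard r).filter fun Q => φ Q ∈ W with h𝒢
  have hcount := count_sets hrk (by omega) (by omega) 𝒢 (filter_subset _ _) (fun J hJ => by
    obtain ⟨hJ1, hJ2⟩ := mem_powersetCard.1 hJ
    have hJk : (φ J).card = k := by rw [hφcard, hJ2]
    have hJX : φ J ⊆ range (X + 1) := by
      intro h hh
      obtain ⟨j, hj, rfl⟩ := mem_image.1 hh
      obtain ⟨-, hj2⟩ := mem_Icc.1 (hJ1 hj)
      refine mem_range.2 (Nat.lt_succ_of_le ?_)
      calc j * k.factorial ≤ M * k.factorial := Nat.mul_le_mul_right _ hj2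
        _ ≤ X := Nat.div_mul_le_self _ _
    obtain ⟨P, hP, hPH⟩ := hH (φ J) (mem_powersetCard.2 ⟨hJX, hJk⟩) (admissible hJk fun h hh => by
      obtain ⟨j, -, rfl⟩ := mem_image.1 hh
      exact Dvd.intro_left j rfl)
    obtain ⟨Q, hQJ, hQP⟩ := subset_image_iff.1 hPH
    have hQP' : φ Q = P := hQP
    refine ⟨Q, mem_filter.2 ⟨mem_powersetCard.2 ⟨hQJ.trans hJ1, ?_⟩, ?_⟩, hQJ⟩
    · rw [← hφcard Q, hQP']
      exact (mem_powersetCard.1 (hW hP)).2
    · rw [hQP']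
      exact hP)
  have h1 : 𝒢.card ≤ W.card := by
    rw [← card_image_of_injective 𝒢 hφinj]
    refine card_le_card fun P hP => ?_
    obtain ⟨Q, hQ, rfl⟩ := mem_image.1 hP
    exact (mem_filter.1 hQ).2
  have h2 : (𝒢.card : ℝ) ≤ (W.card : ℝ) := by exact_mod_cast h1
  refine le_trans ?_ (hcount.trans h2)
  rw [one_div_mul_eq_div, div_le_div_iff₀ (by positivity) (by positivity)]
  have h3 : (X : ℝ) ^ r ≤ (2 * (k.factorial : ℝ) * M) ^ r :=
    pow_le_pow_left₀ (by positivity) hMX r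
  calc (X : ℝ) ^ r * (2 ^ k * (k.factorial : ℝ))
      ≤ (2 * (k.factorial : ℝ) * M) ^ r * (2 ^ k * (k.factorial : ℝ)) :=
        mul_le_mul_of_nonneg_right h3 (by positivity)
    _ = (M : ℝ) ^ r * ((2 * k.factorial : ℝ) ^ r * (2 ^ k * (k.factorial : ℝ))) := by
        rw [mul_pow]
        ring

/-- A positive proportion of the patterns is good for a set of scales of positive upper density. -/
theorem many_scales {PP : Finset (Finset ℕ)} {B δ : ℝ} (hB : (PP.card : ℝ) ≤ B) (hδ : 0 < δ)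
    {N₀ : ℕ} {W : ℕ → Finset (Finset ℕ)} (hW : ∀ N : ℕ, N₀ ≤ N → W N ⊆ PP ∧ δ * B ≤ ((W N).card : ℝ))
    {s : ℕ → ℕ} (hs : Tendsto s atTop atTop) :
    ∃ U : Finset (Finset ℕ), U ⊆ PP ∧ δ / 4 * B ≤ (U.card : ℝ) ∧ ∀ P ∈ U, ∃ᶠ J : ℕ in atTop,
      δ / 4 * (J : ℝ) ≤ (((range J).filter fun j => P ∈ W (s j)).card : ℝ) := by
  classical
  obtain ⟨j₀, hj₀⟩ := eventually_atTop.1 (hs.eventually_ge_atTop N₀)
  obtain ⟨U, hU1, hU2, hU3⟩ := part_two (S := Set.univ) (G := fun j P => P ∈ W (s j)) (n₀ := j₀) hB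
    hδ (fun j hj _ => ⟨W (s j), (hW (s j) (hj₀ j hj)).1, (hW (s j) (hj₀ j hj)).2,
      fun P hP => hP⟩) ⟨2 * j₀, fun N hN => ⟨Ico j₀ N, fun n hn => ⟨(mem_Ico.1 hn).2,
      (mem_Ico.1 hn).1, Set.mem_univ _⟩, by
        rw [Nat.card_Ico, Nat.cast_sub (by omega)]
        have : (2 * j₀ : ℝ) ≤ N := by exact_mod_cast hN
        linarith⟩⟩
  refine ⟨U, hU1, hU2, fun P hP => (hU3 P hP).mono ?_⟩
  rintro J ⟨A, hA, hAc⟩
  refine hAc.trans ?_
  have h1 : A ⊆ (range J).filter fun j => P ∈ W (s j) := fun j hj =>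
    mem_filter.2 ⟨mem_range.2 (hA j hj).1, (hA j hj).2.2⟩
  exact_mod_cast card_le_card h1

end Pool.Agent.Work.MP_40574a_nt_pat
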