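import Pool.Agent.Results.MP_40574a_nt.PrimePatterns

/-!
# MP_40574a_nt: the clusters of primes follow from the pattern theorem
-/

set_option autoImplicit false

namespace Pool.Agent.Work.MP_40574a_nt_pat

open Finset Filter Pool.Agent.Results.MP_40574a_nt.PrimePatterns

/-- The statement of `PrimeClusters`. -/
theorem clusters (r : ℕ) : ∃ k : ℕ, ∃ c : ℝ, 0 < c ∧ ∀ H : Finset ℕ, H.card = k →
    (∀ q : ℕ, q.Prime → ∃ v : ℕ, ∀ h ∈ H, ¬ q ∣ v + h) → ∃ κ : ℝ, 0 < κ ∧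
      ∃ n₀ : ℕ, ∀ n : ℕ, n₀ ≤ n → ¬ 4 ∣ n → ∃ T : Finset ℕ,
        κ * √(n : ℝ) / Real.log n ^ k ≤ (T.card : ℝ) ∧ ∀ m ∈ T,
          (∀ h ∈ H, (∃ x y z w : ℕ,
            n = x ^ 2 + y ^ 2 + z ^ 2 + w ^ 2 ∧ x + 2 * y + 5 * z = m + h) ∧
            ∀ q : ℕ, q.Prime → q ∣ m + h → (n : ℝ) ^ c < q) ∧
          r ≤ (H.filter (fun h => (m + h).Prime)).card := by
  classical
  obtain ⟨k, c, hc, hA⟩ := result r
  obtain ⟨δ, -, X₀, hX⟩ := hA 2 le_rfl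
  refine ⟨k, c, hc, fun H hk hadm => ?_⟩
  obtain ⟨κ, hκ, N₀, hH, -⟩ := hX (max X₀ (H.sup id)) (le_max_left _ _)
  refine ⟨κ, hκ, N₀, fun n hn h4 => ?_⟩
  have hHX : H ⊆ range (max X₀ (H.sup id) + 1) := fun h hh => by
    have h2 : h ≤ H.sup id := le_sup (f := id) hh
    have h3 : H.sup id ≤ max X₀ (H.sup id) := le_max_right _ _
    exact mem_range.2 (by omega)
  obtain ⟨P, hP, T, hT, hm⟩ := hH n hn h4 H (mem_powersetCard.2 ⟨hHX, hk⟩) hadm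
  obtain ⟨hPH, hPr⟩ := mem_powersetCard.1 hP
  refine ⟨T, hT, fun m hmT => ⟨fun h hh => ?_, ?_⟩⟩
  · obtain ⟨h2, h3⟩ := (hm m hmT).2 h hh
    exact ⟨h3, h2⟩
  · rw [← hPr]
    exact card_le_card fun h hh => mem_filter.2 ⟨hPH hh, (hm m hmT).1 h hh⟩

end Pool.Agent.Work.MP_40574a_nt_pat
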